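import Pool.Agent.H992.SF.GDefs

/-!
# The fastest function of a set (MP_a28cf0_nt)
-/

set_option autoImplicit false
open MeasureTheory Filter Topology
open scoped ContDiff ENNReal

namespace Pool.Agent.H51.SG

open Pool.Agent.H992.SF

/-- one of the functions of `A` is the fastest one infinitely often -/
theorem exists_freq {d : ℕ} (lam : Fin d → ℕ → ℝ) (A : Finset (Fin d)) (hA : A.Nonempty) :
    ∃ i₀ ∈ A, ∃ᶠ n in atTop, ∀ j ∈ A, lam j n ≤ lam i₀ n := by
  by_contra hcon
  push Not at hcon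
  have h : ∀ᶠ n : ℕ in atTop, ∀ i ∈ A, ¬ ∀ j ∈ A, lam j n ≤ lam i n := by
    rw [Filter.eventually_all_finset]
    intro i hi
    exact Filter.not_frequently.1 (by simpa using hcon i hi)
  obtain ⟨n, hn⟩ := h.exists
  obtain ⟨i, hi, hmax⟩ := A.exists_max_image (fun i => lam i n) hA
  exact hn i hi hmax

theorem fast : S_FAST := by
  intro d lam hpos hS A hA
  obtain ⟨i₀, hi₀, hf⟩ := exists_freq lam A hA
  refine ⟨i₀, hi₀, fun j hj => ?_⟩
  obtain ⟨c, hc⟩ := hS i₀ j
  have hle : c ≤ 1 := by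
    refine le_of_tendsto_of_frequently hc ?_
    refine hf.mono fun n hn => ?_
    have h1 : lam j n / lam i₀ n ≤ 1 := by
      rw [div_le_one (hpos i₀ n)]
      exact hn j hj
    calc ENNReal.ofReal (lam j n / lam i₀ n) ≤ ENNReal.ofReal 1 := ENNReal.ofReal_le_ofReal h1
      _ = 1 := ENNReal.ofReal_one
  have hne : c ≠ ⊤ := ne_top_of_le_ne_top ENNReal.one_ne_top hle
  have h2 := (ENNReal.tendsto_toReal hne).comp hc
  refine ⟨√ c.toReal, ?_⟩
  have h3 := (Real.continuous_sqrt.tendsto c.toReal).comp h2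
  refine h3.congr fun n => ?_
  simp only [Function.comp_apply]
  rw [ENNReal.toReal_ofReal (div_nonneg (hpos j n).le (hpos i₀ n).le)]

end Pool.Agent.H51.SG
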